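import Pool.Agent.H55.BQ.Targets

/-!
# Separated stars have no common branch (row DC)
-/

set_option autoImplicit false

open Finset

namespace Pool.Agent.H55.BPQ

open Pool.Agent.H55.BP Pool.Agent.H55.BQ

theorem pf_DC (hWEX : T_WEX) (hNIL : T_NIL) (hORD : T_ORD) (hPA : T_PA) : T_DC := by
  intro n _ T ι Y N hn hF e f h κ κ' M hM hb hb' hsep hS hS' hl hl' g d d' hd hd' hdd hE hE'
  have key : ∀ (e : ι) (κ : ℕ), Y.Spiral T N e κ →
      ∃ (L : Walk T) (j : ℕ → ℕ), Ext (cell0 T (Y.γ e 0)) (Y.z N e) (κ + M * N) L j := by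
    intro e κ hs
    have h1 := (hs.left (κ + M * N) (hs.lo.trans (Nat.le_add_right _ _))).2 ⟨M, rfl⟩
    apply hWEX
    rw [h1.1, h1.2]
    decide
  choose L j hL using fun a => key (e a) (κ a) (hS a)
  choose L' j' hL' using fun a => key (f a) (κ' a) (hS' a)
  have hNI := hNIL T Y N hF e f h hb hb' hsep (fun a => κ a + M * N) (fun a => κ' a + M * N) L L'
    j j' hL hL'
  have hO := hORD T Y N hn hF e f h κ κ' M hM hS hS' hl hl' L L' j j' hL hL' g d d' hd hd' hdd hE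
    hE'
  have hend : ∀ {e : ι} {κ : ℕ} {L : Walk T} {j : ℕ → ℕ},
      Ext (cell0 T (Y.γ e 0)) (Y.z N e) κ L j → L.C L.K = Y.c T N e κ := by
    intro e κ L j hL
    have h1 := hL.hC L.K le_rfl
    rw [hL.last] at h1
    exact h1
  have hstart : ∀ {e : ι} {κ : ℕ} {L : Walk T} {j : ℕ → ℕ},
      Ext (cell0 T (Y.γ e 0)) (Y.z N e) κ L j → L.C 0 = cell0 T (Y.γ e 0) := by
    intro e κ L j hL
    rw [hL.hC 0 (Nat.zero_le _)]
    exact (hL.run0 (j 0) le_rfl).1
  refine hPA T L (fun a => (L' a).map h) _ _ ?_ ?_ hNI hO g d d' hd hd' hdd ?_ ?_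
  · intro a b
    rw [hstart (hL a), hstart (hL b), Y.star _ _ (hb a b)]
  · intro a b
    change h.h ((L' a).C 0) = h.h ((L' b).C 0)
    rw [hstart (hL' a), hstart (hL' b), Y.star _ _ (hb' a b)]
  · intro a
    rw [hend (hL a)]
    exact hE a
  · intro a
    change T.dir g (h.h ((L' a).C (L' a).K)) = _
    rw [hend (hL' a)]
    exact hE' a

end Pool.Agent.H55.BPQ
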