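import Pool.Agent.H55.BQ.Targets

/-!
# The parity argument (row PA)
-/

set_option autoImplicit false

open Finset

namespace Pool.Agent.H55.BPQ

open Pool.Agent.H55.BP Pool.Agent.H55.BQ

theorem pf_PA (hNX : T_NX) (hXRV : T_XRV) (hXVT : T_XVT) (hTG : T_TG) (hTC : T_TC) : T_PA := by
  classical
  intro n T L M lam mu hL hM hNI hO g d d' hd hd' hdd hE hF
  have h1 := hNX T L M hL hM hNI 0 1 0 1
  have h2 := hNX T L M hL hM hNI 0 2 0 2
  have h3 := hNX T L M hL hM hNI 1 2 1 2
  obtain ⟨F, hFF⟩ := hXVT T L M lam mu hL hM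
  have h4 := hFF (insert g F) (Finset.subset_insert _ _)
  have h5 : (∑ a : Fin 3, ∑ b : Fin 3,
      if a ≠ b then XV (L a) (M b) (lam a) (mu b) else 0) = 0 := by
    have h6 : (∑ a : Fin 3, ∑ b : Fin 3,
        if a ≠ b then XV (L a) (M b) (lam a) (mu b) else 0) =
        ∑ a : Fin 3, ∑ b : Fin 3, if a ≠ b then XR (L a) (M b) else 0 := by
      refine Finset.sum_congr rfl fun a _ => Finset.sum_congr rfl fun b _ => ?_
      split_ifs with hab
      · exact (hXRV T L M lam mu hO a b hab).symm
      · rfl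
    rw [h6]
    simp only [Fin.sum_univ_three]
    simp only [ne_eq, not_true_eq_false, if_false, Fin.isValue, zero_ne_one, not_false_eq_true,
      if_true, one_ne_zero, Fin.reduceEq, add_zero, zero_add]
    generalize XR (L 0) (M 0) = a00 at *
    generalize XR (L 0) (M 1) = a01 at *
    generalize XR (L 0) (M 2) = a02 at *
    generalize XR (L 1) (M 0) = a10 at *
    generalize XR (L 1) (M 1) = a11 at *
    generalize XR (L 1) (M 2) = a12 at *
    generalize XR (L 2) (M 0) = a20 at *
    generalize XR (L 2) (M 1) = a21 at *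
    generalize XR (L 2) (M 2) = a22 at *
    have h7 : a01 + a02 + (a10 + a12) + (a20 + a21) =
        (a00 + a01 + a10 + a11) + (a00 + a02 + a20 + a22) + (a11 + a12 + a21 + a22) -
          (a00 + a00) - (a11 + a11) - (a22 + a22) := by ring
    have h8 : ∀ x : ZMod 2, x + x = 0 := by decide
    rw [h7, h1, h2, h3, h8 a00, h8 a11, h8 a22]
    ring
  rw [h5, Finset.sum_eq_single g] at h4
  · rw [hTG T (fun a => (L a).C (L a).K) (fun a => (M a).C (M a).K) lam mu g d d' hd hd' hdd hE
      hF] at h4
    exact absurd h4 (by decide)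
  · intro c _ hc
    exact hTC T (fun a => (L a).C (L a).K) (fun a => (M a).C (M a).K) lam mu g d d' hd hd' hdd hE
      hF c hc
  · intro hg
    exact absurd (Finset.mem_insert_self _ _) hg

end Pool.Agent.H55.BPQ
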