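import Pool.Agent.H55.BQ.Sph
import Pool.Agent.H4.BPL.PRM

/-!
# The drawings of a geodesic template (row PR3)
-/

set_option autoImplicit false

open Finset

namespace Pool.Agent.H55.BPQ

open Pool.Agent.H55.BP Pool.Agent.H55.BQ
open Pool.Agent.H4.BPL (pos_of_corners st_nonneg st_lt st_mono pr)

/-- an integer vector -/
noncomputable def cv (a : ℤ × ℤ × ℤ) : ℝ × ℝ × ℝ := ((a.1 : ℝ), (a.2.1 : ℝ), (a.2.2 : ℝ))

/-- a shifted integer vector -/
noncomputable def cvs (a e : ℤ × ℤ × ℤ) (s : ℝ) : ℝ × ℝ × ℝ :=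
  ((a.1 : ℝ) + s * e.1, (a.2.1 : ℝ) + s * e.2.1, (a.2.2 : ℝ) + s * e.2.2)

theorem detR_swap12 (a b c : ℝ × ℝ × ℝ) : detR b a c = - detR a b c := by
  unfold detR
  ring

theorem detR_swap23 (a b c : ℝ × ℝ × ℝ) : detR a c b = - detR a b c := by
  unfold detR
  ring

theorem detR_cyc (a b c : ℝ × ℝ × ℝ) : detR b c a = detR a b c := by
  unfold detR
  ring

theorem detZ_cyc (a b c : ℤ × ℤ × ℤ) : detZ b c a = detZ a b c := by
  unfold detZ
  ring

theorem d_bb_pos {a b e c f : ℤ × ℤ × ℤ} (h : pos4 (fun s t => detZ a (sh3 b e s) (sh3 c f t)))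
    {s t : ℝ} (hs0 : 0 ≤ s) (hs1 : s ≤ 1) (ht0 : 0 ≤ t) (ht1 : t ≤ 1) :
    0 < detR (cv a) (cvs b e s) (cvs c f t) := by
  refine lt_of_lt_of_eq (pos_of_corners h hs0 hs1 ht0 ht1) ?_
  simp only [detR, detZ, sh3, cv, cvs]
  push_cast
  ring

theorem d_bb_neg {a b e c f : ℤ × ℤ × ℤ} (h : pos4 (fun s t => - detZ a (sh3 b e s) (sh3 c f t)))
    {s t : ℝ} (hs0 : 0 ≤ s) (hs1 : s ≤ 1) (ht0 : 0 ≤ t) (ht1 : t ≤ 1) :
    detR (cv a) (cvs b e s) (cvs c f t) < 0 := by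
  rw [← neg_pos]
  refine lt_of_lt_of_eq (pos_of_corners h hs0 hs1 ht0 ht1) ?_
  simp only [detR, detZ, sh3, cv, cvs]
  push_cast
  ring

theorem d_bw_pos {a b e c : ℤ × ℤ × ℤ} (h : pos4 (fun s _ => detZ a (sh3 b e s) c)) {s : ℝ}
    (hs0 : 0 ≤ s) (hs1 : s ≤ 1) : 0 < detR (cv a) (cvs b e s) (cv c) := by
  refine lt_of_lt_of_eq (pos_of_corners h hs0 hs1 le_rfl zero_le_one) ?_
  simp only [detR, detZ, sh3, cv, cvs]
  push_cast
  ring

theorem d_bw_neg {a b e c : ℤ × ℤ × ℤ} (h : pos4 (fun s _ => - detZ a (sh3 b e s) c)) {s : ℝ}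
    (hs0 : 0 ≤ s) (hs1 : s ≤ 1) : detR (cv a) (cvs b e s) (cv c) < 0 := by
  rw [← neg_pos]
  refine lt_of_lt_of_eq (pos_of_corners h hs0 hs1 le_rfl zero_le_one) ?_
  simp only [detR, detZ, sh3, cv, cvs]
  push_cast
  ring

theorem sh3_zero (a e : ℤ × ℤ × ℤ) : sh3 a e 0 = a := by
  simp [sh3]

/-- the sign of a determinant is the one at the corner -/
theorem sg_bb {a b e c f : ℤ × ℤ × ℤ}
    (h : pos4 (fun s t => detZ a (sh3 b e s) (sh3 c f t)) ∨
      pos4 (fun s t => - detZ a (sh3 b e s) (sh3 c f t)))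
    {s t : ℝ} (hs0 : 0 ≤ s) (hs1 : s ≤ 1) (ht0 : 0 ≤ t) (ht1 : t ≤ 1) :
    (0 < detR (cv a) (cvs b e s) (cvs c f t) ↔ 0 < detZ a b c) ∧
      (detR (cv a) (cvs b e s) (cvs c f t) < 0 ↔ detZ a b c < 0) := by
  rcases h with h | h
  · have h1 := d_bb_pos h hs0 hs1 ht0 ht1
    have h2 := h.1
    simp only [sh3_zero] at h2
    exact ⟨⟨fun _ => h2, fun _ => h1⟩, ⟨fun h => absurd h (not_lt.2 h1.le),
      fun h => absurd h (not_lt.2 h2.le)⟩⟩
  · have h1 := d_bb_neg h hs0 hs1 ht0 ht1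
    have h2 := h.1
    simp only [sh3_zero, Left.neg_pos_iff] at h2
    exact ⟨⟨fun h => absurd h (not_lt.2 h1.le), fun h => absurd h (not_lt.2 h2.le)⟩,
      ⟨fun _ => h2, fun _ => h1⟩⟩

theorem sg_bw {a b e c : ℤ × ℤ × ℤ}
    (h : pos4 (fun s _ => detZ a (sh3 b e s) c) ∨ pos4 (fun s _ => - detZ a (sh3 b e s) c))
    {s : ℝ} (hs0 : 0 ≤ s) (hs1 : s ≤ 1) :
    (0 < detR (cv a) (cvs b e s) (cv c) ↔ 0 < detZ a b c) ∧
      (detR (cv a) (cvs b e s) (cv c) < 0 ↔ detZ a b c < 0) := by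
  rcases h with h | h
  · have h1 := d_bw_pos h hs0 hs1
    have h2 := h.1
    simp only [sh3_zero] at h2
    exact ⟨⟨fun _ => h2, fun _ => h1⟩, ⟨fun h => absurd h (not_lt.2 h1.le),
      fun h => absurd h (not_lt.2 h2.le)⟩⟩
  · have h1 := d_bw_neg h hs0 hs1
    have h2 := h.1
    simp only [sh3_zero, Left.neg_pos_iff] at h2
    exact ⟨⟨fun h => absurd h (not_lt.2 h1.le), fun h => absurd h (not_lt.2 h2.le)⟩,
      ⟨fun _ => h2, fun _ => h1⟩⟩

theorem d_same (a b e : ℤ × ℤ × ℤ) (s t : ℝ) :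
    detR (cv a) (cvs b e s) (cvs b e t) = (t - s) * (detZ a b e : ℝ) := by
  simp only [detR, detZ, cv, cvs]
  push_cast
  ring

theorem cv_pole : cv (0, 0, 1) = (0, 0, 1) := by
  simp [cv]

theorem ray_det {x P Q : ℝ × ℝ × ℝ} {c : ℝ} (h : P = (c * Q.1, c * Q.2.1, c * Q.2.2)) :
    detR x P Q = 0 := by
  rw [h]
  simp only [detR]
  ring

section template

variable {n p : ℕ} [NeZero p] (T : Tmpl3 n p) (m : ℕ)

/-- the points of the template -/
noncomputable def pnt3 : Fin n ⊕ Fin m → ℝ × ℝ × ℝ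
  | Sum.inl i => cv (T.w i)
  | Sum.inr j => cvs (T.b (ty p j.val)) (T.e (ty p j.val)) ((j.val : ℝ) / m)

variable {T} (hT : OkT3 T)
include hT

theorem p3_op (i : Fin n) (j : Fin m) (hN : T.N (ty p j.val) i = true) :
    detR (pnt3 T m (Sum.inl i)) (pnt3 T m (Sum.inr j)) (0, 0, 1) ≠ 0 := by
  have a1 := st_nonneg m j
  have a3 := (st_lt m j).le
  rw [← cv_pole]
  rcases hT.op _ i hN with h | h
  · exact (d_bw_pos h a1 a3).ne'
  · exact (d_bw_neg h a1 a3).ne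

theorem p3_det (i : Fin n) (j : Fin m) (hN : T.N (ty p j.val) i = true)
    (x : Fin n ⊕ Fin m) (h1 : x ≠ Sum.inl i) (h2 : x ≠ Sum.inr j) :
    detR (pnt3 T m (Sum.inl i)) (pnt3 T m (Sum.inr j)) (pnt3 T m x) ≠ 0 := by
  have a1 := st_nonneg m j
  have a3 := (st_lt m j).le
  rcases x with i' | j'
  · have hne : i ≠ i' := fun h => h1 (by rw [h])
    rcases hT.ow _ i i' hN hne with h | h
    · exact (d_bw_pos h a1 a3).ne'
    · exact (d_bw_neg h a1 a3).ne
  · have hne : j ≠ j' := fun h => h2 (by rw [h])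
    have a2 := st_nonneg m j'
    have a4 := (st_lt m j').le
    by_cases hk : ty p j.val = ty p j'.val
    · have h3 : detR (pnt3 T m (Sum.inl i)) (pnt3 T m (Sum.inr j)) (pnt3 T m (Sum.inr j')) =
          ((j'.val : ℝ) / m - (j.val : ℝ) / m) *
            (detZ (T.w i) (T.b (ty p j.val)) (T.e (ty p j.val)) : ℝ) := by
        rw [← d_same]
        show detR _ _ (cvs (T.b (ty p j'.val)) (T.e (ty p j'.val)) _) = _
        rw [← hk]
        rfl
      rw [h3]
      refine mul_ne_zero ?_ (by exact_mod_cast hT.sd _ i hN)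
      rcases lt_trichotomy j j' with h4 | h4 | h4
      · have := st_mono m h4
        exact (by linarith : 0 < (j'.val : ℝ) / m - (j.val : ℝ) / m).ne'
      · exact absurd h4 hne
      · have := st_mono m h4
        exact (by linarith : (j'.val : ℝ) / m - (j.val : ℝ) / m < 0).ne
    · rcases hT.ob _ _ i hN hk with h | h
      · exact (d_bb_pos h a1 a3 a2 a4).ne'
      · exact (d_bb_neg h a1 a3 a2 a4).ne

theorem p3_axis (u : Fin n ⊕ Fin m) : (pnt3 T m u).1 ≠ 0 ∨ (pnt3 T m u).2.1 ≠ 0 := by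
  rcases u with i | j
  · rcases hT.wz i with h | h
    · left
      change ((T.w i).1 : ℝ) ≠ 0
      exact_mod_cast h
    · right
      change ((T.w i).2.1 : ℝ) ≠ 0
      exact_mod_cast h
  · obtain ⟨i, hi⟩ := hT.nb (ty p j.val)
    by_contra hcon
    push Not at hcon
    apply p3_op m hT i j hi
    simp only [detR]
    rw [hcon.1, hcon.2]
    ring

/-- a black point and another point are independent -/
theorem p3_indep (j : Fin m) (u : Fin n ⊕ Fin m) (hu : u ≠ Sum.inr j) :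
    ∃ x, detR x (pnt3 T m (Sum.inr j)) (pnt3 T m u) ≠ 0 := by
  obtain ⟨i, hi⟩ := hT.nb (ty p j.val)
  by_cases h : u = Sum.inl i
  · refine ⟨(0, 0, 1), ?_⟩
    rw [h]
    intro h1
    apply p3_op m hT i j hi
    simp only [detR] at h1 ⊢
    linarith
  · exact ⟨_, p3_det m hT i j hi u h hu⟩

theorem p3_rays (u v : Fin n ⊕ Fin m) (huv : u ≠ v) (c : ℝ) (_ : 0 < c) :
    pnt3 T m u ≠ (c * (pnt3 T m v).1, c * (pnt3 T m v).2.1, c * (pnt3 T m v).2.2) := by
  intro heq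
  rcases u with i | j
  · rcases v with i' | j'
    · have h1 : ((T.w i).1 : ℝ) = c * (T.w i').1 := congrArg Prod.fst heq
      have h2 : ((T.w i).2.1 : ℝ) = c * (T.w i').2.1 := congrArg (fun x => x.2.1) heq
      have h3 : ((T.w i).2.2 : ℝ) = c * (T.w i').2.2 := congrArg (fun x => x.2.2) heq
      rcases hT.ww i i' (fun h => huv (by rw [h])) with h | h | h
      · apply h
        have : ((T.w i).1 : ℝ) * (T.w i').2.1 = (T.w i).2.1 * (T.w i').1 := by
          rw [h1, h2]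
          ring
        exact_mod_cast this
      · apply h
        have : ((T.w i).1 : ℝ) * (T.w i').2.2 = (T.w i).2.2 * (T.w i').1 := by
          rw [h1, h3]
          ring
        exact_mod_cast this
      · apply h
        have : ((T.w i).2.1 : ℝ) * (T.w i').2.2 = (T.w i).2.2 * (T.w i').2.1 := by
          rw [h2, h3]
          ring
        exact_mod_cast this
    · obtain ⟨x, hx⟩ := p3_indep m hT j' (Sum.inl i) huv
      apply hx
      rw [detR_swap23, ray_det heq, neg_zero]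
  · obtain ⟨x, hx⟩ := p3_indep m hT j v huv.symm
    exact hx (ray_det heq)

end template

theorem crs_swap1 {a b c d : ℝ × ℝ × ℝ} (h : Crs a b c d) : Crs b a c d := by
  unfold Crs at *
  rw [detR_swap12 a b d, detR_swap12 a b c]
  rcases h with ⟨h1, h2, h3, h4⟩ | ⟨h1, h2, h3, h4⟩
  · exact Or.inr ⟨h2, h1, by linarith, by linarith⟩
  · exact Or.inl ⟨h2, h1, by linarith, by linarith⟩

theorem crs_comm {a b c d : ℝ × ℝ × ℝ} (h : Crs a b c d) : Crs c d a b := by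
  unfold Crs at *
  rw [← detR_cyc d a b, ← detR_cyc c a b, detR_cyc b c d, detR_cyc a c d]
  rcases h with ⟨h1, h2, h3, h4⟩ | ⟨h1, h2, h3, h4⟩
  · exact Or.inr ⟨h3, h4, h1, h2⟩
  · exact Or.inl ⟨h3, h4, h1, h2⟩

theorem crs_swap2 {a b c d : ℝ × ℝ × ℝ} (h : Crs a b c d) : Crs a b d c :=
  crs_comm (crs_swap1 (crs_comm h))

/-- normal form of the bad pairs of a bipartite graph -/
theorem bad_form3 {n m : ℕ} (A : Fin n → Fin m → Bool) (P : Fin n ⊕ Fin m → ℝ × ℝ × ℝ)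
    {x : Sym2 (Sym2 (Fin n ⊕ Fin m))} (hx : x ∈ badPairs3 (BG A) P) :
    ∃ (i i' : Fin n) (j j' : Fin m), i ≠ i' ∧ j < j' ∧ A i j = true ∧ A i' j' = true ∧
      x = pr i j i' j' ∧
      Crs (P (Sum.inl i)) (P (Sum.inr j)) (P (Sum.inl i')) (P (Sum.inr j')) := by
  have key : ∃ (i i' : Fin n) (j j' : Fin m), i ≠ i' ∧ j ≠ j' ∧ A i j = true ∧ A i' j' = true ∧
      x = pr i j i' j' ∧
      Crs (P (Sum.inl i)) (P (Sum.inr j)) (P (Sum.inl i')) (P (Sum.inr j')) := by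
    obtain ⟨a, b, c, d, hab, hcd, h1, h2, h3, h4, rfl, hS⟩ := hx
    rcases hab with ⟨i, j, rfl, rfl, hA⟩ | ⟨i, j, rfl, rfl, hA⟩ <;>
      rcases hcd with ⟨i', j', rfl, rfl, hA'⟩ | ⟨i', j', rfl, rfl, hA'⟩
    · exact ⟨i, i', j, j', fun h => h1 (by rw [h]), fun h => h4 (by rw [h]), hA, hA', rfl, hS⟩
    · exact ⟨i, i', j, j', fun h => h2 (by rw [h]), fun h => h3 (by rw [h]), hA, hA',
        by unfold pr; rw [Sym2.eq_swap (a := Sum.inr j')], crs_swap2 hS⟩
    · exact ⟨i, i', j, j', fun h => h3 (by rw [h]), fun h => h2 (by rw [h]), hA, hA',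
        by unfold pr; rw [Sym2.eq_swap (a := Sum.inr j)], crs_swap1 hS⟩
    · exact ⟨i, i', j, j', fun h => h4 (by rw [h]), fun h => h1 (by rw [h]), hA, hA',
        by unfold pr; rw [Sym2.eq_swap (a := Sum.inr j), Sym2.eq_swap (a := Sum.inr j')],
        crs_swap1 (crs_swap2 hS)⟩
  obtain ⟨i, i', j, j', h1, h2, h3, h4, h5, h6⟩ := key
  rcases lt_or_gt_of_ne h2 with h | h
  · exact ⟨i, i', j, j', h1, h, h3, h4, h5, h6⟩
  · exact ⟨i', i, j', j, h1.symm, h, h4, h3, by rw [h5]; unfold pr; rw [Sym2.eq_swap],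
      crs_comm h6⟩

/-- different types -/
theorem p3_diff {n p m : ℕ} [NeZero p] {T : Tmpl3 n p} (hT : OkT3 T) {i i' : Fin n} {j j' : Fin m}
    (hii : i ≠ i') (hN : T.N (ty p j.val) i = true) (hN' : T.N (ty p j'.val) i' = true)
    (hk : ty p j.val ≠ ty p j'.val)
    (hS : Crs (pnt3 T m (Sum.inl i)) (pnt3 T m (Sum.inr j)) (pnt3 T m (Sum.inl i'))
      (pnt3 T m (Sum.inr j'))) : crT T (ty p j.val) (ty p j'.val) i i' = true := by
  have a1 := st_nonneg m j
  have a2 := st_nonneg m j'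
  have a3 := (st_lt m j).le
  have a4 := (st_lt m j').le
  have e1 := sg_bb (hT.ob _ _ i' hN' (Ne.symm hk)) a2 a4 a1 a3
  have e2 := sg_bw (hT.ow _ i' i hN' (Ne.symm hii)) a2 a4
  have e3 := sg_bb (hT.ob _ _ i hN hk) a1 a3 a2 a4
  have e4 := sg_bw (hT.ow _ i i' hN hii) a1 a3
  unfold crT
  rw [decide_eq_true_eq]
  rw [← detZ_cyc (T.b (ty p j.val)) (T.w i') (T.b (ty p j'.val)),
    ← detZ_cyc (T.w i) (T.w i') (T.b (ty p j'.val))]
  rw [← e1.1, ← e1.2, ← e2.1, ← e2.2, ← e3.1, ← e3.2, ← e4.1, ← e4.2]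
  unfold Crs at hS
  rw [← detR_cyc (pnt3 T m (Sum.inr j)) (pnt3 T m (Sum.inl i')) (pnt3 T m (Sum.inr j')),
    ← detR_cyc (pnt3 T m (Sum.inl i)) (pnt3 T m (Sum.inl i')) (pnt3 T m (Sum.inr j'))] at hS
  exact hS

/-- the same type -/
theorem p3_main {n p m : ℕ} [NeZero p] {T : Tmpl3 n p} {i i' : Fin n} {j j' : Fin m}
    (hjj : j < j') (hk : ty p j.val = ty p j'.val)
    (hS : Crs (pnt3 T m (Sum.inl i)) (pnt3 T m (Sum.inr j)) (pnt3 T m (Sum.inl i'))
      (pnt3 T m (Sum.inr j'))) :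
    (0 < detZ (T.w i) (T.b (ty p j.val)) (T.e (ty p j.val)) ∧
      0 < detZ (T.w i') (T.b (ty p j.val)) (T.e (ty p j.val)) ∧
      detR (pnt3 T m (Sum.inl i)) (pnt3 T m (Sum.inr j)) (pnt3 T m (Sum.inl i')) < 0) ∨
    (detZ (T.w i) (T.b (ty p j.val)) (T.e (ty p j.val)) < 0 ∧
      detZ (T.w i') (T.b (ty p j.val)) (T.e (ty p j.val)) < 0 ∧
      0 < detR (pnt3 T m (Sum.inl i)) (pnt3 T m (Sum.inr j)) (pnt3 T m (Sum.inl i'))) := by
  have hst := st_mono m hjj
  have key : ∀ x : Fin n, detR (pnt3 T m (Sum.inl x)) (pnt3 T m (Sum.inr j))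
      (pnt3 T m (Sum.inr j')) = ((j'.val : ℝ) / m - (j.val : ℝ) / m) *
        (detZ (T.w x) (T.b (ty p j.val)) (T.e (ty p j.val)) : ℝ) := by
    intro x
    rw [← d_same]
    show detR _ _ (cvs (T.b (ty p j'.val)) (T.e (ty p j'.val)) _) = _
    rw [← hk]
    rfl
  have hpos : 0 < (j'.val : ℝ) / m - (j.val : ℝ) / m := by linarith
  unfold Crs at hS
  rw [detR_swap12 (pnt3 T m (Sum.inl i')) (pnt3 T m (Sum.inr j)), key i, key i'] at hS
  rcases hS with ⟨h1, -, h3, h4⟩ | ⟨h1, -, h3, h4⟩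
  · right
    refine ⟨?_, ?_, h4⟩
    · have h5 : (detZ (T.w i) (T.b (ty p j.val)) (T.e (ty p j.val)) : ℝ) < 0 := by
        by_contra hcon
        push Not at hcon
        have := mul_nonneg hpos.le hcon
        linarith
      exact_mod_cast h5
    · have h5 : (detZ (T.w i') (T.b (ty p j.val)) (T.e (ty p j.val)) : ℝ) < 0 := by
        by_contra hcon
        push Not at hcon
        have := mul_nonneg hpos.le hcon
        linarith
      exact_mod_cast h5
  · left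
    refine ⟨?_, ?_, h4⟩
    · have h5 : (0 : ℝ) < detZ (T.w i) (T.b (ty p j.val)) (T.e (ty p j.val)) := by
        by_contra hcon
        push Not at hcon
        have := mul_nonneg_of_nonpos_of_nonpos (by linarith : -((j'.val : ℝ) / m -
          (j.val : ℝ) / m) ≤ 0) hcon
        linarith
      exact_mod_cast h5
    · have h5 : (0 : ℝ) < detZ (T.w i') (T.b (ty p j.val)) (T.e (ty p j.val)) := by
        by_contra hcon
        push Not at hcon
        have := mul_nonneg_of_nonpos_of_nonpos (by linarith : -((j'.val : ℝ) / m -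
          (j.val : ℝ) / m) ≤ 0) hcon
        linarith
      exact_mod_cast h5

/-- the set counted by `ctb3` -/
def p3_F {n p : ℕ} (T : Tmpl3 n p) (k l : Fin p) : Finset (Fin n × Fin n) :=
  if k = l then
    (univ : Finset (Fin n × Fin n)).filter fun x => x.1 < x.2 ∧ T.N k x.1 = true ∧
      T.N k x.2 = true ∧ (0 < detZ (T.w x.1) (T.b k) (T.e k) ↔
        0 < detZ (T.w x.2) (T.b k) (T.e k))
  else
    (univ : Finset (Fin n × Fin n)).filter fun x => x.1 ≠ x.2 ∧ T.N k x.1 = true ∧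
      T.N l x.2 = true ∧ crT T k l x.1 x.2 = true

theorem p3_card {n p : ℕ} (T : Tmpl3 n p) (k l : Fin p) : (p3_F T k l).card = ctb3 T k l := by
  unfold p3_F ctb3
  by_cases h : k = l
  · rw [if_pos h, if_pos h]
  · rw [if_neg h, if_neg h]

/-- the relation between the bad pairs and the counted objects -/
def p3_R {n p : ℕ} [NeZero p] (T : Tmpl3 n p) (m : ℕ) (x : Sym2 (Sym2 (Fin n ⊕ Fin m)))
    (y : (_ : Fin m × Fin m) × (Fin n × Fin n)) : Prop :=
  (ty p y.1.1.val ≠ ty p y.1.2.val ∧ x = pr y.2.1 y.1.1 y.2.2 y.1.2) ∨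
  (ty p y.1.1.val = ty p y.1.2.val ∧ ∃ i i' : Fin n, x = pr i y.1.1 i' y.1.2 ∧
    (y.2 = (i, i') ∨ y.2 = (i', i)) ∧
    ((0 < detZ (T.w i) (T.b (ty p y.1.1.val)) (T.e (ty p y.1.1.val)) ∧
      0 < detZ (T.w i') (T.b (ty p y.1.1.val)) (T.e (ty p y.1.1.val)) ∧
      detR (pnt3 T m (Sum.inl i)) (pnt3 T m (Sum.inr y.1.1)) (pnt3 T m (Sum.inl i')) < 0) ∨
    (detZ (T.w i) (T.b (ty p y.1.1.val)) (T.e (ty p y.1.1.val)) < 0 ∧
      detZ (T.w i') (T.b (ty p y.1.1.val)) (T.e (ty p y.1.1.val)) < 0 ∧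
      0 < detR (pnt3 T m (Sum.inl i)) (pnt3 T m (Sum.inr y.1.1)) (pnt3 T m (Sum.inl i')))))

theorem p3_unique {n p : ℕ} [NeZero p] (T : Tmpl3 n p) (m : ℕ)
    {x x' : Sym2 (Sym2 (Fin n ⊕ Fin m))} {y : (_ : Fin m × Fin m) × (Fin n × Fin n)}
    (h : p3_R T m x y) (h' : p3_R T m x' y) : x = x' := by
  rcases h with ⟨h1, h2⟩ | ⟨h1, i, i', hx, hy, hs⟩
  · rcases h' with ⟨_, h4⟩ | ⟨h3, _⟩
    · rw [h2, h4]
    · exact absurd h3 h1
  · rcases h' with ⟨h3, _⟩ | ⟨_, e, e', hx', hy', hr⟩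
    · exact absurd h1 h3
    · have hcase : (i = e ∧ i' = e') ∨ (i = e' ∧ i' = e) := by
        rcases hy with hy | hy <;> rcases hy' with hy' | hy' <;> rw [hy, Prod.mk.injEq] at hy'
        · exact Or.inl hy'
        · exact Or.inr hy'
        · exact Or.inr ⟨hy'.2, hy'.1⟩
        · exact Or.inl ⟨hy'.2, hy'.1⟩
      rcases hcase with ⟨rfl, rfl⟩ | ⟨rfl, rfl⟩
      · rw [hx, hx']
      · exfalso
        have hrev : detR (pnt3 T m (Sum.inl i')) (pnt3 T m (Sum.inr y.1.1))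
            (pnt3 T m (Sum.inl i)) = - detR (pnt3 T m (Sum.inl i)) (pnt3 T m (Sum.inr y.1.1))
            (pnt3 T m (Sum.inl i')) := by
          unfold detR
          ring
        rw [hrev] at hr
        rcases hs with ⟨g1, g2, g3⟩ | ⟨g1, g2, g3⟩ <;> rcases hr with ⟨f1, f2, f3⟩ | ⟨f1, f2, f3⟩
        · linarith
        · exact absurd f1 (not_lt.2 g2.le)
        · exact absurd f1 (not_lt.2 g2.le)
        · linarith

theorem pf_PR3 (hSL : T_SLS) : T_PR3 := by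
  intro n p _ T hT m
  obtain ⟨D, hD⟩ := hSL (BG (T.adj m)) (pnt3 T m) (p3_axis m hT) (p3_rays m hT) (by
    rintro u v (⟨i, j, rfl, rfl, hA⟩ | ⟨i, j, rfl, rfl, hA⟩)
    · exact p3_op m hT i j hA
    · rw [detR_swap12]
      exact neg_ne_zero.2 (p3_op m hT i j hA)) (by
    rintro u v x (⟨i, j, rfl, rfl, hA⟩ | ⟨i, j, rfl, rfl, hA⟩) h1 h2
    · exact p3_det m hT i j hA x h1 h2
    · rw [detR_swap12]
      exact neg_ne_zero.2 (p3_det m hT i j hA x h2 h1))
  refine ⟨D, hD.trans ?_⟩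
  set S : Finset ((_ : Fin m × Fin m) × (Fin n × Fin n)) :=
    ((univ : Finset (Fin m × Fin m)).filter fun x => x.1 < x.2).sigma
      fun q => p3_F T (ty p q.1.val) (ty p q.2.val) with hSdef
  have hcard : S.card = ∑ x ∈ (univ : Finset (Fin m × Fin m)).filter fun x => x.1 < x.2,
      ctb3 T (ty p x.1.val) (ty p x.2.val) := by
    rw [hSdef, card_sigma]
    exact sum_congr rfl fun q _ => p3_card T _ _
  rw [← hcard]
  have key : ∀ x ∈ badPairs3 (BG (T.adj m)) (pnt3 T m), ∃ y ∈ S, p3_R T m x y := by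
    intro x hx
    obtain ⟨i, i', j, j', h1, h2, h3, h4, hx', h6⟩ := bad_form3 _ _ hx
    have h3' : T.N (ty p j.val) i = true := h3
    have h4' : T.N (ty p j'.val) i' = true := h4
    by_cases hk : ty p j.val = ty p j'.val
    · have hres := p3_main h2 hk h6
      have hside : (0 < detZ (T.w i) (T.b (ty p j.val)) (T.e (ty p j.val)) ↔
          0 < detZ (T.w i') (T.b (ty p j.val)) (T.e (ty p j.val))) := by
        rcases hres with ⟨g1, g2, -⟩ | ⟨g1, g2, -⟩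
        · exact ⟨fun _ => g2, fun _ => g1⟩
        · exact ⟨fun h => absurd h (not_lt.2 g1.le), fun h => absurd h (not_lt.2 g2.le)⟩
      have h4'' : T.N (ty p j.val) i' = true := by rw [hk]; exact h4'
      rcases lt_or_gt_of_ne h1 with hlt | hlt
      · refine ⟨⟨(j, j'), (i, i')⟩, ?_, Or.inr ⟨hk, i, i', hx', Or.inl rfl, hres⟩⟩
        rw [hSdef, mem_sigma, mem_filter]
        refine ⟨⟨mem_univ _, h2⟩, ?_⟩
        change (i, i') ∈ p3_F T (ty p j.val) (ty p j'.val)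
        unfold p3_F
        rw [if_pos hk, mem_filter]
        exact ⟨mem_univ _, hlt, h3', h4'', hside⟩
      · refine ⟨⟨(j, j'), (i', i)⟩, ?_, Or.inr ⟨hk, i, i', hx', Or.inr rfl, hres⟩⟩
        rw [hSdef, mem_sigma, mem_filter]
        refine ⟨⟨mem_univ _, h2⟩, ?_⟩
        change (i', i) ∈ p3_F T (ty p j.val) (ty p j'.val)
        unfold p3_F
        rw [if_pos hk, mem_filter]
        exact ⟨mem_univ _, hlt, h4'', h3', hside.symm⟩
    · refine ⟨⟨(j, j'), (i, i')⟩, ?_, Or.inl ⟨hk, hx'⟩⟩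
      rw [hSdef, mem_sigma, mem_filter]
      refine ⟨⟨mem_univ _, h2⟩, ?_⟩
      change (i, i') ∈ p3_F T (ty p j.val) (ty p j'.val)
      unfold p3_F
      rw [if_neg hk, mem_filter]
      exact ⟨mem_univ _, h1, h3', h4', p3_diff hT h1 h3' h4' hk h6⟩
  rcases isEmpty_or_nonempty ((_ : Fin m × Fin m) × (Fin n × Fin n)) with hemp | hne
  · have h0 : badPairs3 (BG (T.adj m)) (pnt3 T m) = ∅ := by
      ext x
      simp only [Set.mem_empty_iff_false, iff_false]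
      intro hx
      obtain ⟨q, _, _⟩ := key x hx
      exact hemp.false q
    rw [h0, Set.ncard_empty]
    exact Nat.zero_le _
  choose! f hf1 hf2 using key
  have h1 := Set.ncard_le_ncard_of_injOn f (s := badPairs3 (BG (T.adj m)) (pnt3 T m))
    (t := (S : Set ((_ : Fin m × Fin m) × (Fin n × Fin n))))
    (fun x hx => Finset.mem_coe.2 (hf1 x hx))
    (fun x hx y hy hxy => by
      have h2 := hf2 x hx
      rw [hxy] at h2
      exact p3_unique T m h2 (hf2 y hy)) (Finset.finite_toSet _)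
  rwa [Set.ncard_coe_finset] at h1

end Pool.Agent.H55.BPQ
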