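import Pool.Agent.H55.BQ.Sph

/-!
# Periodic sums over pairs (row PSM)
-/

set_option autoImplicit false

open Finset

namespace Pool.Agent.H55.BPQ

open Pool.Agent.H55.BP Pool.Agent.H55.BQ

/-- sums over pairs as double sums -/
theorem pairs_sum (s : ℕ → ℕ → ℕ) (M : ℕ) :
    (∑ x ∈ (univ : Finset (Fin M × Fin M)).filter fun x => x.1 < x.2, s x.1.val x.2.val) =
      ∑ y ∈ range M, ∑ x ∈ range y, s x y := by
  rw [Finset.sum_filter, ← Finset.univ_product_univ, Finset.sum_product_right]
  rw [← Fin.sum_univ_eq_sum_range (fun y => ∑ x ∈ range y, s x y) M]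
  refine Finset.sum_congr rfl fun y _ => ?_
  have h1 : (∑ x : Fin M, if x < y then s x.val y.val else 0) =
      ∑ x ∈ range M, if x < y.val then s x y.val else 0 := by
    rw [← Fin.sum_univ_eq_sum_range (fun x => if x < y.val then s x y.val else 0) M]
    refine Finset.sum_congr rfl fun x _ => ?_
    simp only [Fin.lt_def]
  rw [h1, ← Finset.sum_filter]
  refine Finset.sum_congr ?_ fun x _ => rfl
  ext x
  simp only [Finset.mem_filter, Finset.mem_range]
  have := y.2
  omega

theorem tt_eq (α s : ℕ) :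
    tt α s = ∑ y ∈ range s, ∑ x ∈ range y, if x % α = y % α then 1 else 0 := by
  rw [← pairs_sum (fun x y => if x % α = y % α then 1 else 0) s]
  unfold tt
  rw [← Finset.filter_filter, Finset.card_filter]

theorem count_mod (α y : ℕ) (hα : 0 < α) :
    (∑ x ∈ range y, if x % α = y % α then 1 else 0) = y / α := by
  have h1 : ∀ k r : ℕ, r < α →
      (∑ x ∈ range (α * k), if x % α = r then 1 else 0) = k := by
    intro k r hr
    induction k with
    | zero => simp
    | succ k ih =>
      rw [Nat.mul_succ, Finset.sum_range_add, ih]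
      congr 1
      rw [Finset.sum_eq_single r]
      · rw [if_pos]
        rw [Nat.mul_add_mod, Nat.mod_eq_of_lt hr]
      · intro b hb hbr
        rw [if_neg]
        rw [Nat.mul_add_mod, Nat.mod_eq_of_lt (Finset.mem_range.1 hb)]
        exact hbr
      · intro h
        exact absurd (Finset.mem_range.2 hr) h
  conv_lhs => rw [show range y = range (α * (y / α) + y % α) by rw [Nat.div_add_mod]]
  rw [Finset.sum_range_add, h1 _ _ (Nat.mod_lt _ hα), Finset.sum_eq_zero]
  · rfl
  · intro x hx
    rw [if_neg]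
    rw [Nat.mul_add_mod, Nat.mod_eq_of_lt ((Finset.mem_range.1 hx).trans (Nat.mod_lt _ hα))]
    exact (Finset.mem_range.1 hx).ne

theorem tt_succ (α s : ℕ) (hα : 0 < α) : tt α (s + 1) = tt α s + s / α := by
  rw [tt_eq, tt_eq, Finset.sum_range_succ, count_mod α s hα]

theorem div_sum (a b : ℕ) : a * (3 * (0 + 1)) + a * (3 * (1 + 1)) +
    (3 * b / 10 + (3 * b + 1) / 10 + (3 * b + 2) / 10) =
    3 * (10 * a + b) / 10 + (3 * (10 * a + b) + 1) / 10 + (3 * (10 * a + b) + 1 + 1) / 10 := by
  have h1 : 3 * (10 * a + b) / 10 = 3 * a + 3 * b / 10 := by omega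
  have h2 : (3 * (10 * a + b) + 1) / 10 = 3 * a + (3 * b + 1) / 10 := by omega
  have h3 : (3 * (10 * a + b) + 1 + 1) / 10 = 3 * a + (3 * b + 2) / 10 := by omega
  rw [h1, h2, h3]
  ring

theorem pf_PSM : T_PSM := by
  intro s h1 h2 h3 h4 q
  have h1' : ∀ a x y, s (20 * a + x) y = s x y := by
    intro a x y
    induction a with
    | zero => simp
    | succ a ih =>
      rw [show 20 * (a + 1) + x = 20 * a + x + 20 by ring, h1, ih]
  have h2' : ∀ a x y, s x (20 * a + y) = s x y := by
    intro a x y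
    induction a with
    | zero => simp
    | succ a ih =>
      rw [show 20 * (a + 1) + y = 20 * a + y + 20 by ring, h2, ih]
  have h5a : ∀ a y, (∑ x ∈ range (20 * a), s x y) = a * (∑ x ∈ range 20, s x y) := by
    intro a y
    induction a with
    | zero => rw [Nat.mul_zero, Finset.range_zero, Finset.sum_empty, Nat.zero_mul]
    | succ a ih =>
      rw [Nat.mul_succ, Finset.sum_range_add, ih,
        Finset.sum_congr rfl fun x (_ : x ∈ range 20) => h1' a x y]
      ring
  have h5 : ∀ a r y, (∑ x ∈ range (20 * a + r), s x y) =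
      a * (∑ x ∈ range 20, s x y) + ∑ x ∈ range r, s x y := by
    intro a r y
    rw [Finset.sum_range_add, h5a]
    rw [Finset.sum_congr rfl fun x (_ : x ∈ range r) => h1' a x y]
  rw [pairs_sum s]
  induction q with
  | zero => simp only [Nat.mul_zero, tt_eq, Finset.range_zero, Finset.sum_empty]
  | succ q ih =>
    obtain ⟨a, b, hb, hq⟩ : ∃ a b, b < 10 ∧ q = 10 * a + b :=
      ⟨q / 10, q % 10, Nat.mod_lt _ (by norm_num), (Nat.div_add_mod q 10).symm⟩
    have e1 : (∑ x ∈ range (2 * q), s x (2 * q)) =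
        a * (∑ x ∈ range 20, s x (2 * b)) + ∑ x ∈ range (2 * b), s x (2 * b) := by
      rw [← h5]
      rw [show 20 * a + 2 * b = 2 * q by rw [hq]; ring]
      refine Finset.sum_congr rfl fun x _ => ?_
      rw [show 2 * q = 20 * a + 2 * b by rw [hq]; ring, h2']
    have e2 : (∑ x ∈ range (2 * q + 1), s x (2 * q + 1)) =
        a * (∑ x ∈ range 20, s x (2 * b + 1)) + ∑ x ∈ range (2 * b + 1), s x (2 * b + 1) := by
      rw [← h5]
      rw [show 20 * a + (2 * b + 1) = 2 * q + 1 by rw [hq]; ring]
      refine Finset.sum_congr rfl fun x _ => ?_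
      rw [show 2 * q + 1 = 20 * a + (2 * b + 1) by rw [hq]; ring, h2']
    have e3 := h3 (2 * b) (by omega)
    have e4 := h3 (2 * b + 1) (by omega)
    have e5 := h4 b hb
    rw [show 2 * b % 2 = 0 by omega] at e3
    rw [show (2 * b + 1) % 2 = 1 by omega] at e4
    rw [e3] at e1
    rw [e4] at e2
    have e6 : (∑ y ∈ range (2 * (q + 1)), ∑ x ∈ range y, s x y) =
        (∑ y ∈ range (2 * q), ∑ x ∈ range y, s x y) + ∑ x ∈ range (2 * q), s x (2 * q) +
          ∑ x ∈ range (2 * q + 1), s x (2 * q + 1) := by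
      rw [show 2 * (q + 1) = 2 * q + 1 + 1 by ring, Finset.sum_range_succ, Finset.sum_range_succ]
    have e7 : tt 10 (3 * (q + 1)) = tt 10 (3 * q) + 3 * q / 10 + (3 * q + 1) / 10 +
        (3 * q + 1 + 1) / 10 := by
      rw [show 3 * (q + 1) = 3 * q + 1 + 1 + 1 by ring, tt_succ _ _ (by norm_num),
        tt_succ _ _ (by norm_num), tt_succ _ _ (by norm_num)]
    have e8 := div_sum a b
    rw [← hq] at e8
    generalize (∑ x ∈ range (2 * b), s x (2 * b)) = A at *
    generalize (∑ x ∈ range (2 * b + 1), s x (2 * b + 1)) = B at *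
    generalize (∑ x ∈ range (2 * q), s x (2 * q)) = A' at *
    generalize (∑ x ∈ range (2 * q + 1), s x (2 * q + 1)) = B' at *
    generalize (∑ y ∈ range (2 * q), ∑ x ∈ range y, s x y) = S at *
    generalize tt 10 (3 * q) = S' at *
    rw [e6, e7, ih, e1, e2]
    linarith

end Pool.Agent.H55.BPQ
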