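import Pool.Agent.H55.BQ.Targets

/-!
# The lower bound for drawings (row STR)
-/

set_option autoImplicit false

open Finset

namespace Pool.Agent.H55.BPQ

open Pool.Agent.H55.BP Pool.Agent.H55.BQ

theorem pf_STR (hHOM : T_HOM) (hTRD : T_TRD) (hSYS : T_SYS) (hSTY : T_STY) : T_STR := by
  classical
  intro n m G D hn hG
  have : NeZero n := ⟨by omega⟩
  obtain ⟨f, hf⟩ := hHOM n (fun i => D.pt (Sum.inl i)) (D.pt_inj.comp Sum.inl_injective)
  obtain ⟨D', hpt, hcr⟩ := hTRD G D f
  obtain ⟨Y, hY, hfin, hle⟩ := hSYS n m G D' hG (fun i => by rw [hpt]; exact hf i)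
  have : Fintype {e : Fin m × Fin n // G.Adj (Sum.inr e.1) (Sum.inl e.2)} := Fintype.ofFinite _
  have h1 := hSTY Y hn hfin (Finset.range m)
  have h2 : (∑ u ∈ Finset.range m, ((Y.legs u).card - 2)) =
      ∑ j : Fin m, ((univ.filter fun i : Fin n => G.Adj (Sum.inr j) (Sum.inl i)).card - 2) := by
    rw [← Fin.sum_univ_eq_sum_range (fun u => (Y.legs u).card - 2) m]
    refine Finset.sum_congr rfl fun j _ => ?_
    congr 1
    refine Finset.card_bij (fun e _ => e.val.2) ?_ ?_ ?_
    · intro e he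
      unfold Sys.legs at he
      rw [Finset.mem_filter] at he
      rw [Finset.mem_filter]
      refine ⟨Finset.mem_univ _, ?_⟩
      have h3 : e.val.1 = j := Fin.ext (by rw [← (hY e).1]; exact he.2)
      rw [← h3]
      exact e.2
    · intro e he e' he' hee
      unfold Sys.legs at he he'
      rw [Finset.mem_filter] at he he'
      have h3 : e.val.1 = j := Fin.ext (by rw [← (hY e).1]; exact he.2)
      have h4 : e'.val.1 = j := Fin.ext (by rw [← (hY e').1]; exact he'.2)
      exact Subtype.ext (Prod.ext (h3.trans h4.symm) hee)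
    · intro i hi
      rw [Finset.mem_filter] at hi
      refine ⟨⟨(j, i), hi.2⟩, ?_, rfl⟩
      unfold Sys.legs
      rw [Finset.mem_filter]
      exact ⟨Finset.mem_univ _, (hY _).1⟩
  rw [h2] at h1
  rw [hcr] at hle
  have h5 := h1.trans hle
  exact Nat.le_of_mul_le_mul_left h5 (by norm_num)

end Pool.Agent.H55.BPQ
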